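import Pool.Agent.H.MP_18219f_mp.B

set_option autoImplicit false
open Matrix
open scoped ComplexOrder

namespace Pool.Agent.Results.MP_18219f_mp.Additive

def sigma (n : ℕ) : Matrix (Fin 2 × Fin n) (Fin 2 × Fin n) ℝ :=
  blockDiagonal fun _ => !![0, 1; -1, 0]

def IsCov {n : ℕ} (γ : Matrix (Fin 2 × Fin n) (Fin 2 × Fin n) ℝ) : Prop :=
  γ.IsSymm ∧ (γ.map ((↑) : ℝ → ℂ) - Complex.I • (sigma n).map ((↑) : ℝ → ℂ)).PosSemidef

def costs {n : ℕ} (γ : Matrix (Fin 2 × Fin n) (Fin 2 × Fin n) ℝ) : Set ℝ :=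
  {x | ∃ S : Matrix (Fin 2 × Fin n) (Fin 2 × Fin n) ℝ, Sᵀ * sigma n * S = sigma n ∧
    (γ - Sᵀ * S).PosSemidef ∧
    x = ∑ i ∈ Finset.range n, Real.log ((toEuclideanLin S).singularValues i)}

def modes (n₁ n₂ : ℕ) : (Fin 2 × Fin n₁) ⊕ (Fin 2 × Fin n₂) ≃ Fin 2 × Fin (n₁ + n₂) :=
  (Equiv.prodSumDistrib _ _ _).symm.trans ((Equiv.refl _).prodCongr finSumFinEquiv)

open Pool.Agent.H.MP_18219f_mp in
theorem result (n₁ n₂ : ℕ) (γA : Matrix (Fin 2 × Fin n₁) (Fin 2 × Fin n₁) ℝ)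
    (γB : Matrix (Fin 2 × Fin n₂) (Fin 2 × Fin n₂) ℝ) (hA : IsCov γA) (hB : IsCov γB) :
    ∃ a b : ℝ, IsGLB (costs γA) a ∧ IsGLB (costs γB) b ∧
      IsGLB (costs (reindex (modes n₁ n₂) (modes n₁ n₂) (fromBlocks γA 0 0 γB))) (a + b) := by
  have pA := Cov.psd hA (σ_tr n₁)
  have pB := Cov.psd hB (σ_tr n₂)
  obtain ⟨a, b, h1, h2, h3⟩ := additive (J := σ n₁) (J' := σ n₂) hA (σ_orth n₁) (σ_tr n₁) hB
    (σ_orth n₂) (σ_tr n₂)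
  rw [← vals_σ pA] at h1
  rw [← vals_σ pB] at h2
  refine ⟨a, b, h1, h2, ?_⟩
  have e : σ (n₁ + n₂) = (fromBlocks (σ n₁) 0 0 (σ n₂)).submatrix (modes n₁ n₂).symm
      (modes n₁ n₂).symm := by
    rw [← reindex_apply, ← Equiv.symm_apply_eq, reindex_symm, reindex_apply]
    ext (⟨a, i⟩ | ⟨a, i⟩) (⟨b, j⟩ | ⟨b, j⟩) <;> simp [σ, modes, blockDiagonal_apply, Fin.ext_iff]
    all_goals omega
  change IsGLB (vals (σ _) _ _) _
  rw [reindex_apply, vals_σ ((psd_blocks pA pB).submatrix _), e, V_eq]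
  exact h3

end Pool.Agent.Results.MP_18219f_mp.Additive
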